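import Mathlib

/-!
# Growth of infinite monochromatic sumsets (disproof)

For every `H : ℕ → ℕ` with `H(N) = o(N)` and every finite colouring of the positive integers there
are infinite sets `B`, `C` of positive integers with `B + C` monochromatic such that
`B(N) ≥ H(N)` for infinitely many `N` and `C(N) ≥ H(N)` for infinitely many `N`.
-/

namespace Pool.Agent.Results.MP_870dc7_co.DenseChunks

open Filter Topology

/-- The counting function `S(N) = |S ∩ {1,…,N}|`. -/
noncomputable def count (S : Set ℕ) (N : ℕ) : ℕ := (S ∩ Set.Icc 1 N).ncard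

lemma count_mono {S T : Set ℕ} (h : S ⊆ T) (N : ℕ) : count S N ≤ count T N :=
  Set.ncard_le_ncard (Set.inter_subset_inter_left _ h)
    ((Set.finite_Icc 1 N).subset Set.inter_subset_right)

lemma count_union_le (S T : Set ℕ) (N : ℕ) : count (S ∪ T) N ≤ count S N + count T N := by
  unfold count
  rw [Set.union_inter_distrib_right]
  exact Set.ncard_union_le _ _

lemma count_univ (N : ℕ) : count Set.univ N = N := by
  unfold count
  rw [Set.univ_inter, Set.ncard_eq_toFinset_card', Set.toFinset_Icc, Nat.card_Icc]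
  omega

/-- zero density -/
def Null (S : Set ℕ) : Prop := Tendsto (fun N => (count S N : ℝ) / N) atTop (𝓝 0)

lemma Null.mono {S T : Set ℕ} (hT : Null T) (h : S ⊆ T) : Null S := by
  refine squeeze_zero (fun N => by positivity) (fun N => ?_) hT
  have : (count S N : ℝ) ≤ count T N := by exact_mod_cast count_mono h N
  gcongr

lemma Null.union {S T : Set ℕ} (hS : Null S) (hT : Null T) : Null (S ∪ T) := by
  have h := hS.add hT
  rw [add_zero] at h
  refine squeeze_zero (fun N => by positivity) (fun N => ?_) h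
  have : (count (S ∪ T) N : ℝ) ≤ count S N + count T N := by
    exact_mod_cast count_union_le S T N
  rw [← add_div]
  gcongr

lemma null_of_finite {S : Set ℕ} (hS : S.Finite) : Null S := by
  have h : Tendsto (fun N : ℕ => (S.ncard : ℝ) / N) atTop (𝓝 0) :=
    tendsto_const_div_atTop_nhds_zero_nat _
  refine squeeze_zero (fun N => by positivity) (fun N => ?_) h
  have : (count S N : ℝ) ≤ S.ncard := by
    exact_mod_cast Set.ncard_le_ncard Set.inter_subset_left hS
  gcongr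

lemma not_null_univ : ¬ Null Set.univ := by
  intro h
  have h1 : Tendsto (fun N : ℕ => (count Set.univ N : ℝ) / N) atTop (𝓝 1) := by
    refine tendsto_const_nhds.congr' ?_
    filter_upwards [eventually_gt_atTop 0] with N hN
    rw [count_univ, div_self]
    exact_mod_cast hN.ne'
  exact zero_ne_one (tendsto_nhds_unique h h1)

/-- the filter of sets with null complement -/
def conullFilter : Filter ℕ where
  sets := {S | Null Sᶜ}
  univ_sets := by
    show Null Set.univᶜ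
    rw [Set.compl_univ]
    exact null_of_finite Set.finite_empty
  sets_of_superset := by
    intro S T hS hST
    exact Null.mono hS (Set.compl_subset_compl.2 hST)
  inter_sets := by
    intro S T hS hT
    show Null (S ∩ T)ᶜ
    rw [Set.compl_inter]
    exact Null.union hS hT

instance : conullFilter.NeBot := by
  refine ⟨fun h => ?_⟩
  have : (∅ : Set ℕ) ∈ conullFilter := by rw [h]; exact Filter.mem_bot
  have h2 : Null (∅ : Set ℕ)ᶜ := this
  rw [Set.compl_empty] at h2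
  exact not_null_univ h2

/-- an ultrafilter none of whose members is null -/
noncomputable def nu : Ultrafilter ℕ := Ultrafilter.of conullFilter

lemma not_null_of_mem {S : Set ℕ} (hS : S ∈ nu) : ¬ Null S := by
  intro h
  have h1 : Sᶜ ∈ conullFilter := by
    show Null Sᶜᶜ
    rw [compl_compl]; exact h
  have h2 : Sᶜ ∈ nu := Ultrafilter.of_le conullFilter h1
  exact (Ultrafilter.compl_mem_iff_notMem.1 h2) hS

lemma frequently_le {H : ℕ → ℕ} (hH : Tendsto (fun N => (H N : ℝ) / N) atTop (𝓝 0))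
    {S : Set ℕ} (hS : S ∈ nu) : ∃ᶠ N in atTop, H N ≤ count S N := by
  have h := not_null_of_mem hS
  unfold Null at h
  rw [Metric.tendsto_nhds] at h
  push Not at h
  obtain ⟨ε, hε, h⟩ := h
  rw [Metric.tendsto_nhds] at hH
  refine (h.and_eventually (hH ε hε)).mp ?_
  filter_upwards [eventually_gt_atTop 0] with N hN h1
  obtain ⟨h1, h2⟩ := h1
  rw [Real.dist_eq, sub_zero, abs_of_nonneg (by positivity)] at h1 h2
  have h3 : (H N : ℝ) / N < (count S N : ℝ) / N := lt_of_lt_of_le h2 (not_lt.1 (by simpa using h1))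
  have h4 : (H N : ℝ) < count S N := by
    have hN' : (0 : ℝ) < N := by exact_mod_cast hN
    exact (div_lt_div_iff_of_pos_right hN').1 h3
  exact_mod_cast h4.le

lemma infinite_of_mem {S : Set ℕ} (hS : S ∈ nu) : S.Infinite := fun h =>
  not_null_of_mem hS (null_of_finite h)

/-- Two finite sets inside `E` all of whose cross sums have colour `k`. -/
def Inv {r : ℕ} (χ : ℕ → Fin r) (k : Fin r) (E : Set ℕ) (B C : Set ℕ) : Prop :=
  B.Finite ∧ C.Finite ∧ B ⊆ E ∧ C ⊆ E ∧ ∀ b ∈ B, ∀ c ∈ C, χ (b + c) = k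

lemma Inv.swap {r : ℕ} {χ : ℕ → Fin r} {k : Fin r} {E B C : Set ℕ} (h : Inv χ k E B C) :
    Inv χ k E C B :=
  ⟨h.2.1, h.1, h.2.2.2.1, h.2.2.1, fun c hc b hb => by rw [add_comm]; exact h.2.2.2.2 b hb c hc⟩

/-- `B` is large at some place beyond `i`, and has an element beyond `i`. -/
def Big (H : ℕ → ℕ) (i : ℕ) (B : Set ℕ) : Prop :=
  (∃ N, i ≤ N ∧ H N ≤ count B N) ∧ ∃ b ∈ B, i < b

lemma Big.mono {H : ℕ → ℕ} {i : ℕ} {B B' : Set ℕ} (h : Big H i B) (hB : B ⊆ B') : Big H i B' := by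
  obtain ⟨⟨N, hN, h1⟩, b, hb, h2⟩ := h
  exact ⟨⟨N, hN, h1.trans (count_mono hB N)⟩, b, hB hb, h2⟩

lemma half_step {r : ℕ} {χ : ℕ → Fin r} {k : Fin r} {E : Set ℕ} {H : ℕ → ℕ}
    (hH : Tendsto (fun N => (H N : ℝ) / N) atTop (𝓝 0))
    (hE : E ∈ nu) (hE2 : ∀ b ∈ E, {c | χ (b + c) = k} ∈ nu) (i : ℕ) {B C : Set ℕ}
    (h : Inv χ k E B C) : ∃ B', B ⊆ B' ∧ Inv χ k E B' C ∧ Big H i B' := by
  obtain ⟨hB, hC, hBE, hCE, hBC⟩ := h
  have hD : (E ∩ ⋂ c ∈ C, {b | χ (c + b) = k}) ∈ nu := by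
    refine Filter.inter_mem hE ?_
    rw [Filter.biInter_mem hC]
    intro c hc
    exact hE2 c (hCE hc)
  set D := E ∩ ⋂ c ∈ C, {b | χ (c + b) = k} with hDdef
  obtain ⟨d, hdD, hid⟩ := (infinite_of_mem hD).exists_gt i
  obtain ⟨N, hN1, hN2⟩ := (frequently_le hH hD).forall_exists_of_atTop (max i d)
  refine ⟨B ∪ (D ∩ Set.Icc 1 N), Set.subset_union_left, ⟨?_, hC, ?_, hCE, ?_⟩, ?_, ?_⟩
  · exact hB.union ((Set.finite_Icc 1 N).subset Set.inter_subset_right)
  · rintro b (hb | hb)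
    · exact hBE hb
    · exact hb.1.1
  · rintro b (hb | hb) c hc
    · exact hBC b hb c hc
    · have := hb.1.2
      rw [Set.mem_iInter₂] at this
      rw [add_comm]
      exact this c hc
  · refine ⟨N, (le_max_left _ _).trans hN1, hN2.trans ?_⟩
    unfold count
    refine Set.ncard_le_ncard ?_ ((Set.finite_Icc 1 N).subset Set.inter_subset_right)
    rintro x ⟨hx1, hx2⟩
    exact ⟨Or.inr ⟨hx1, hx2⟩, hx2⟩
  · refine ⟨d, Or.inr ⟨hdD, ?_⟩, hid⟩
    exact ⟨by omega, (le_max_right _ _).trans hN1⟩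

lemma full_step {r : ℕ} {χ : ℕ → Fin r} {k : Fin r} {E : Set ℕ} {H : ℕ → ℕ}
    (hH : Tendsto (fun N => (H N : ℝ) / N) atTop (𝓝 0))
    (hE : E ∈ nu) (hE2 : ∀ b ∈ E, {c | χ (b + c) = k} ∈ nu) (i : ℕ)
    (p : {p : Set ℕ × Set ℕ // Inv χ k E p.1 p.2}) :
    ∃ q : {p : Set ℕ × Set ℕ // Inv χ k E p.1 p.2},
      p.1.1 ⊆ q.1.1 ∧ p.1.2 ⊆ q.1.2 ∧ Big H i q.1.1 ∧ Big H i q.1.2 := by
  obtain ⟨⟨B, C⟩, h⟩ := p
  obtain ⟨B', hB', h', hb⟩ := half_step hH hE hE2 i h
  obtain ⟨C', hC', h'', hc⟩ := half_step hH hE hE2 i h'.swap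
  exact ⟨⟨(B', C'), h''.swap⟩, hB', hC', hb, hc⟩

/-- **Theorem.** Let `H : ℕ → ℕ` satisfy `H(N)/N → 0`. For every finite colouring `χ` there are
infinite sets `B`, `C` of positive integers such that `B + C` is monochromatic,
`B(N) ≥ H(N)` for infinitely many `N`, and `C(N) ≥ H(N)` for infinitely many `N`. -/
theorem result (H : ℕ → ℕ) (hH : Tendsto (fun N => (H N : ℝ) / N) atTop (𝓝 0))
    (r : ℕ) (χ : ℕ → Fin r) :
    ∃ B C : Set ℕ, B.Infinite ∧ C.Infinite ∧ (∀ b ∈ B, 1 ≤ b) ∧ (∀ c ∈ C, 1 ≤ c) ∧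
      (∃ k : Fin r, ∀ b ∈ B, ∀ c ∈ C, χ (b + c) = k) ∧
      (∃ᶠ N in atTop, H N ≤ count B N) ∧ (∃ᶠ N in atTop, H N ≤ count C N) := by
  -- the colour of `b + ν`
  have hj : ∀ b : ℕ, ∃ k : Fin r, {c | χ (b + c) = k} ∈ nu := by
    intro b
    have := (Ultrafilter.eventually_exists_iff (f := nu) (P := fun k c => χ (b + c) = k)).1
      (Filter.Eventually.of_forall fun c => ⟨_, rfl⟩)
    exact this
  choose j hj using hj
  obtain ⟨k, hk⟩ : ∃ k : Fin r, {b | j b = k} ∈ nu :=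
    (Ultrafilter.eventually_exists_iff (f := nu) (P := fun k b => j b = k)).1
      (Filter.Eventually.of_forall fun c => ⟨_, rfl⟩)
  set E : Set ℕ := {b | j b = k} ∩ {b | 1 ≤ b} with hEdef
  have hpos : {b : ℕ | 1 ≤ b} ∈ nu := by
    refine Ultrafilter.of_le conullFilter ?_
    show Null {b : ℕ | 1 ≤ b}ᶜ
    refine null_of_finite ((Set.finite_singleton 0).subset ?_)
    intro b hb
    simp only [Set.mem_compl_iff, Set.mem_ofPred_eq, not_le] at hb
    simp only [Set.mem_singleton_iff]; omega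
  have hE : E ∈ nu := Filter.inter_mem hk hpos
  have hE2 : ∀ b ∈ E, {c | χ (b + c) = k} ∈ nu := by
    intro b hb
    have h1 : j b = k := hb.1
    rw [← h1]; exact hj b
  have hInv0 : Inv χ k E ∅ ∅ :=
    ⟨Set.finite_empty, Set.finite_empty, Set.empty_subset _, Set.empty_subset _, by simp⟩
  choose f hf using fun i p => full_step (χ := χ) hH hE hE2 i p
  let seq : ℕ → {p : Set ℕ × Set ℕ // Inv χ k E p.1 p.2} := fun n =>
    Nat.rec ⟨(∅, ∅), hInv0⟩ (fun i p => f i p) n
  have hseq : ∀ i, seq (i + 1) = f i (seq i) := fun i => rfl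
  have mono1 : Monotone fun i => (seq i).1.1 :=
    monotone_nat_of_le_succ fun i => by rw [hseq]; exact (hf i (seq i)).1
  have mono2 : Monotone fun i => (seq i).1.2 :=
    monotone_nat_of_le_succ fun i => by rw [hseq]; exact (hf i (seq i)).2.1
  have big1 : ∀ i, Big H i (⋃ i, (seq i).1.1) := fun i =>
    Big.mono (by rw [hseq]; exact (hf i (seq i)).2.2.1)
      (Set.subset_iUnion (fun i => (seq i).1.1) (i + 1))
  have big2 : ∀ i, Big H i (⋃ i, (seq i).1.2) := fun i =>
    Big.mono (by rw [hseq]; exact (hf i (seq i)).2.2.2)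
      (Set.subset_iUnion (fun i => (seq i).1.2) (i + 1))
  have inf_of_big : ∀ S : Set ℕ, (∀ i, Big H i S) → S.Infinite := by
    intro S hS
    refine Set.infinite_of_forall_exists_gt fun i => ?_
    obtain ⟨b, hb, h⟩ := (hS i).2
    exact ⟨b, hb, h⟩
  have freq_of_big : ∀ S : Set ℕ, (∀ i, Big H i S) → ∃ᶠ N in atTop, H N ≤ count S N := by
    intro S hS
    refine Filter.frequently_atTop.2 fun i => ?_
    obtain ⟨N, hN, h⟩ := (hS i).1
    exact ⟨N, hN, h⟩
  refine ⟨⋃ i, (seq i).1.1, ⋃ i, (seq i).1.2, inf_of_big _ big1, inf_of_big _ big2, ?_, ?_,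
    ⟨k, ?_⟩, freq_of_big _ big1, freq_of_big _ big2⟩
  · intro b hb
    obtain ⟨i, hi⟩ := Set.mem_iUnion.1 hb
    exact ((seq i).2.2.2.1 hi).2
  · intro b hb
    obtain ⟨i, hi⟩ := Set.mem_iUnion.1 hb
    exact ((seq i).2.2.2.2.1 hi).2
  · intro b hb c hc
    obtain ⟨i, hi⟩ := Set.mem_iUnion.1 hb
    obtain ⟨i', hi'⟩ := Set.mem_iUnion.1 hc
    exact (seq (max i i')).2.2.2.2.2 b (mono1 (le_max_left i i') hi) c
      (mono2 (le_max_right i i') hi')

end Pool.Agent.Results.MP_870dc7_co.DenseChunks
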